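import Pool.Agent.H546R3.LAmain

/-!
# `lim add M` and `lim Add M` may differ for a single module `M`

Answer to Q2 of MP_e6182f_al.
-/

set_option autoImplicit false

open CategoryTheory CategoryTheory.Limits
open scoped DirectSum

namespace Pool.Agent.Results.MP_e6182f_al.OneModule

/-- `N` is isomorphic to a direct summand of a finite direct sum of copies of `M`:
the class `add M`. -/
def InAdd {R : Type} [Ring R] (M N : ModuleCat.{0} R) : Prop :=
  ∃ (n : ℕ) (f : (N : Type) →ₗ[R] DirectSum (Fin n) (fun _ => (M : Type)))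
    (g : DirectSum (Fin n) (fun _ => (M : Type)) →ₗ[R] (N : Type)), g ∘ₗ f = LinearMap.id

/-- `N` is isomorphic to a direct summand of a direct sum, over any index set, of copies of `M`:
the class `Add M`. -/
def InBigAdd {R : Type} [Ring R] (M N : ModuleCat.{0} R) : Prop :=
  ∃ (ι : Type) (f : (N : Type) →ₗ[R] DirectSum ι (fun _ => (M : Type)))
    (g : DirectSum ι (fun _ => (M : Type)) →ₗ[R] (N : Type)), g ∘ₗ f = LinearMap.id

/-- `N` is isomorphic to the direct limit of a direct system of modules of the class `C`, indexed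
by a (nonempty) upward directed poset. -/
def IsDirectLimit {R : Type} [Ring R] (C : ModuleCat.{0} R → Prop) (N : ModuleCat.{0} R) : Prop :=
  ∃ (J : Type) (_ : PartialOrder J) (_ : IsDirectedOrder J) (_ : Nonempty J)
    (F : J ⥤ ModuleCat.{0} R), (∀ j : J, C (F.obj j)) ∧
      ∃ c : Cocone F, Nonempty (IsColimit c) ∧ Nonempty (c.pt ≅ N)

/-- Q2: `lim add M = lim Add M` for every ring `R` and every `R`-module `M`. -/
def Q2 : Prop :=
  ∀ (R : Type) [Ring R] (M N : ModuleCat.{0} R),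
    IsDirectLimit (InAdd M) N ↔ IsDirectLimit (InBigAdd M) N

theorem not_filtered {J : Type} [SmallCategory J] [IsFiltered J]
    (F : J ⥤ ModuleCat.{0} H546R3.LA.R)
    (hF : ∀ j : J, InAdd (ModuleCat.of H546R3.LA.R H546R3.LA.Mt) (F.obj j))
    (c : Cocone F) (hc : IsColimit c) (e : c.pt ≅ H546R3.LA.X) : False := by
  refine H546R3.LA.not_lim_add F ?_ c hc e.toLinearEquiv
  intro j
  obtain ⟨n, f, g, h⟩ := hF j
  exact ⟨n, fun _ => ModuleCat.of H546R3.LA.R H546R3.LA.Mt,
    fun _ => ⟨LinearEquiv.refl _ _⟩, f, g, h⟩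

/-- There are a ring `R` and `R`-modules `M`, `X` such that `X` is the direct limit of a sequence
of direct sums of countably many copies of `M`, while `X` is not a filtered colimit (in particular
not a direct limit over a directed poset) of direct summands of finite direct sums of copies of
`M`. Hence Q2 has a negative answer. -/
theorem result :
    (∃ (R : Type) (_ : Ring R) (M X : ModuleCat.{0} R),
      (∃ (F : ℕ ⥤ ModuleCat.{0} R), (∀ n, F.obj n = ModuleCat.of R (⨁ _ : ℕ, (M : Type))) ∧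
        ∃ c : Cocone F, Nonempty (IsColimit c) ∧ c.pt = X) ∧
      (∀ (J : Type) (_ : SmallCategory J) (_ : IsFiltered J) (F : J ⥤ ModuleCat.{0} R),
        (∀ j : J, InAdd M (F.obj j)) → ∀ c : Cocone F, Nonempty (IsColimit c) →
          ¬ Nonempty (c.pt ≅ X)) ∧
      IsDirectLimit (InBigAdd M) X ∧ ¬ IsDirectLimit (InAdd M) X) ∧
    ¬ Q2 := by
  have key : IsDirectLimit (InBigAdd (ModuleCat.of H546R3.LA.R H546R3.LA.Mt)) H546R3.LA.X ∧
      ¬ IsDirectLimit (InAdd (ModuleCat.of H546R3.LA.R H546R3.LA.Mt)) H546R3.LA.X := by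
    constructor
    · exact ⟨ℕ, inferInstance, inferInstance, inferInstance, H546R3.LA.Fn,
        fun j => ⟨ℕ, LinearMap.id, LinearMap.id, rfl⟩,
        H546R3.LA.cX, ⟨H546R3.LA.hcX⟩, ⟨Iso.refl _⟩⟩
    · rintro ⟨J, _, _, _, F, hF, c, ⟨hc⟩, ⟨e⟩⟩
      exact not_filtered F hF c hc e
  refine ⟨⟨H546R3.LA.R, inferInstance, ModuleCat.of H546R3.LA.R H546R3.LA.Mt, H546R3.LA.X,
    ⟨H546R3.LA.Fn, fun _ => rfl, H546R3.LA.cX, ⟨H546R3.LA.hcX⟩, rfl⟩, ?_, key.1, key.2⟩, ?_⟩
  · intro J _ _ F hF c hc hne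
    obtain ⟨hc⟩ := hc
    obtain ⟨e⟩ := hne
    exact not_filtered F hF c hc e
  · intro h
    exact key.2 ((h H546R3.LA.R (ModuleCat.of H546R3.LA.R H546R3.LA.Mt) H546R3.LA.X).2 key.1)

end Pool.Agent.Results.MP_e6182f_al.OneModule
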